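import Pool.Agent.W739.CY.Stm

set_option autoImplicit false
set_option linter.unusedSectionVars false

namespace Pool.Agent.W298.CY

open Finset Pool.Agent.W739.CY

section stfacts
variable {C : Type} [Fintype C]

theorem st_nil (f : List C → ℝ) : st f [] = f [] := rfl
theorem st_none (f : List C → ℝ) (s : List (Option C)) : st f (none :: s) = ∑ x : C, st (fun w => f (x :: w)) s := rfl
theorem st_some (f : List C → ℝ) (x : C) (s : List (Option C)) : st f (some x :: s) = st (fun w => f (x :: w)) s := rfl

theorem st_congr (f g : List C → ℝ) (s : List (Option C)) (h : ∀ w, w.length = s.length → f w = g w) :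
    st f s = st g s := by
  induction s generalizing f g with
  | nil => exact h [] rfl
  | cons x s ih =>
    cases x with
    | none =>
      rw [st_none, st_none]
      apply Finset.sum_congr rfl
      intro c _
      exact ih _ _ (fun w hw => h _ (by simp [hw]))
    | some c =>
      rw [st_some, st_some]
      exact ih _ _ (fun w hw => h _ (by simp [hw]))

theorem st_append (f : List C → ℝ) (s t : List (Option C)) :
    st f (s ++ t) = st (fun v => st (fun w => f (v ++ w)) t) s := by
  induction s generalizing f with
  | nil => rfl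
  | cons x s ih =>
    cases x with
    | none =>
      rw [List.cons_append, st_none, st_none]
      apply Finset.sum_congr rfl
      intro c _
      rw [ih]
      rfl
    | some c =>
      rw [List.cons_append, st_some, st_some, ih]
      rfl

theorem st_mul_left (c : ℝ) (f : List C → ℝ) (s : List (Option C)) : st (fun w => c * f w) s = c * st f s := by
  induction s generalizing f with
  | nil => rfl
  | cons x s ih =>
    cases x with
    | none =>
      rw [st_none, st_none, Finset.mul_sum]
      apply Finset.sum_congr rfl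
      intro d _
      rw [ih]
    | some d =>
      rw [st_some, st_some, ih]

theorem st_mul_right (c : ℝ) (f : List C → ℝ) (s : List (Option C)) : st (fun w => f w * c) s = st f s * c := by
  rw [mul_comm, ← st_mul_left]
  apply st_congr
  intro w _
  ring

theorem st_sum {ι : Type} [Fintype ι] (f : ι → List C → ℝ) (s : List (Option C)) :
    st (fun w => ∑ i, f i w) s = ∑ i, st (f i) s := by
  induction s generalizing f with
  | nil => rfl
  | cons x s ih =>
    cases x with
    | none =>
      simp only [st_none]
      rw [Finset.sum_comm]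
      apply Finset.sum_congr rfl
      intro d _
      rw [ih]
    | some d =>
      simp only [st_some]
      rw [ih]

theorem sum_cons (k : ℕ) (g : (Fin (k + 1) → C) → ℝ) :
    ∑ x : Fin (k + 1) → C, g x = ∑ a : C, ∑ y : Fin k → C, g (Fin.cons a y) := by
  rw [← (Fin.consEquiv (fun _ : Fin (k + 1) => C)).sum_comp, Fintype.sum_prod_type]
  rfl

theorem ofFn_cons (k : ℕ) (a : C) (y : Fin k → C) : List.ofFn (Fin.cons a y : Fin (k + 1) → C) = a :: List.ofFn y := by
  rw [List.ofFn_succ]
  simp

theorem st_replicate (k : ℕ) (f : List C → ℝ) :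
    st f (List.replicate k none) = ∑ x : Fin k → C, f (List.ofFn x) := by
  induction k generalizing f with
  | zero =>
    simp [st_nil]
  | succ k ih =>
    rw [List.replicate_succ, st_none, sum_cons]
    apply Finset.sum_congr rfl
    intro a _
    rw [ih]
    apply Finset.sum_congr rfl
    intro y _
    rw [ofFn_cons]

end stfacts

theorem mass_eq {n q : ℕ} (f : List (Fin q) → ℝ) (s : Fin n → Option (Fin q)) :
    Mass (fun x => f (List.ofFn x)) s = st f (List.ofFn s) := by
  induction n generalizing f with
  | zero =>
    unfold Mass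
    simp [st_nil]
  | succ n ih =>
    unfold Mass
    rw [sum_cons, List.ofFn_succ]
    have hc : ∀ (a : Fin q) (y : Fin n → Fin q),
        (∀ i : Fin (n + 1), s i = none ∨ s i = some ((Fin.cons a y : Fin (n + 1) → Fin q) i)) ↔
        (s 0 = none ∨ s 0 = some a) ∧ (∀ i : Fin n, s i.succ = none ∨ s i.succ = some (y i)) := by
      intro a y
      rw [Fin.forall_fin_succ]
      simp
    simp only [hc, ofFn_cons]
    cases h0 : s 0 with
    | none =>
      rw [st_none]
      apply Finset.sum_congr rfl
      intro a _
      rw [← ih]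
      unfold Mass
      simp
    | some c =>
      rw [st_some, ← ih]
      unfold Mass
      rw [Finset.sum_eq_single c]
      · simp
      · intro b _ hb
        apply Finset.sum_eq_zero
        intro y _
        rw [if_neg]
        rintro ⟨h1, -⟩
        rcases h1 with h1 | h1
        · simp at h1
        · exact hb (Option.some.inj h1).symm
      · intro h; exact absurd (Finset.mem_univ _) h

/-! ### segments -/

section segs
variable {α : Type}

/-- the list `f a, f (a+1), …, f (a+m-1)` -/
def seg (f : ℕ → α) (a : ℕ) : ℕ → List α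
  | 0 => []
  | m + 1 => f a :: seg f (a + 1) m

theorem seg_zero (f : ℕ → α) (a : ℕ) : seg f a 0 = [] := rfl
theorem seg_succ (f : ℕ → α) (a m : ℕ) : seg f a (m + 1) = f a :: seg f (a + 1) m := rfl

theorem seg_length (f : ℕ → α) (a m : ℕ) : (seg f a m).length = m := by
  induction m generalizing a with
  | zero => rfl
  | succ m ih => rw [seg_succ, List.length_cons, ih]

theorem seg_add (f : ℕ → α) (a m1 m2 : ℕ) : seg f a (m1 + m2) = seg f a m1 ++ seg f (a + m1) m2 := by
  induction m1 generalizing a with
  | zero => simp [seg_zero]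
  | succ m ih =>
    rw [show m + 1 + m2 = (m + m2) + 1 by ring, seg_succ, seg_succ, List.cons_append, ih,
      show a + 1 + m = a + (m + 1) by ring]

theorem seg_congr (f g : ℕ → α) (a b m : ℕ) (h : ∀ i, i < m → f (a + i) = g (b + i)) : seg f a m = seg g b m := by
  induction m generalizing a b with
  | zero => rfl
  | succ m ih =>
    rw [seg_succ, seg_succ, ih (a + 1) (b + 1) (fun i hi => by
      rw [show a + 1 + i = a + (i + 1) by ring, show b + 1 + i = b + (i + 1) by ring]
      exact h (i + 1) (by omega))]
    have := h 0 (by omega)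
    rw [Nat.add_zero, Nat.add_zero] at this
    rw [this]

theorem seg_const (f : ℕ → α) (c : α) (a m : ℕ) (h : ∀ i, a ≤ i → i < a + m → f i = c) :
    seg f a m = List.replicate m c := by
  induction m generalizing a with
  | zero => rfl
  | succ m ih =>
    rw [seg_succ, List.replicate_succ, h a le_rfl (by omega), ih (a + 1) (fun i h1 h2 => h i (by omega) (by omega))]

theorem seg_ofFn {n : ℕ} (s : Fin n → α) (f : ℕ → α) (h : ∀ i : Fin n, f i = s i) : List.ofFn s = seg f 0 n := by
  have : ∀ (n a : ℕ) (s : Fin n → α) (f : ℕ → α), (∀ i : Fin n, f (a + i) = s i) → List.ofFn s = seg f a n := by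
    intro n
    induction n with
    | zero => intro a s f _; rfl
    | succ n ih =>
      intro a s f hf
      rw [List.ofFn_succ, seg_succ, ih (a + 1) (fun i => s i.succ) f (fun i => by
        rw [← hf]
        congr 1
        simp only [Fin.val_succ]
        ring)]
      have := hf 0
      simp only [Fin.val_zero, Nat.add_zero] at this
      rw [this]
  exact this n 0 s f (fun i => by rw [Nat.zero_add]; exact h i)

end segs

section lin
variable {C : Type} [Fintype C]

theorem st_split {k : ℕ} (P : List C → ℝ)
    (hP : ∀ u v : List C, ∑ s : Fin k → C, P (u ++ List.ofFn s ++ v) = P u * P v) (l1 l2 : List (Option C)) :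
    st P (l1 ++ (List.replicate k none ++ l2)) = st P l1 * st P l2 := by
  rw [st_append, ← st_mul_right]
  apply st_congr
  intro v _
  rw [st_append, st_replicate, ← st_sum, ← st_mul_left]
  apply st_congr
  intro w _
  rw [← hP]
  apply Finset.sum_congr rfl
  intro x _
  rw [List.append_assoc]

theorem gap_lem {k : ℕ} (s t : ℕ → Option C) (i0 j0 : ℕ) (h : i0 ≤ j0) (hs : s i0 ≠ none) (ht : t j0 ≠ none)
    (sep : ∀ i j, i0 ≤ i → i ≤ j → j ≤ j0 → s i ≠ none → t j ≠ none → i + k < j) :
    ∃ p, i0 < p ∧ p + k ≤ j0 ∧ ∀ l, p ≤ l → l < p + k → s l = none ∧ t l = none := by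
  classical
  have hex : ∃ j, i0 ≤ j ∧ t j ≠ none := ⟨j0, h, ht⟩
  obtain ⟨hj1, hj2⟩ := Nat.find_spec hex
  set j := Nat.find hex with hj
  have hjle : j ≤ j0 := Nat.find_min' hex ⟨h, ht⟩
  have hmin : ∀ l, i0 ≤ l → l < j → t l = none := by
    intro l h1 h2
    by_contra hc
    exact Nat.find_min hex h2 ⟨h1, hc⟩
  set i := Nat.findGreatest (fun i => s i ≠ none) j with hi
  have hi1 : i0 ≤ i := Nat.le_findGreatest hj1 hs
  have hi2 : s i ≠ none := Nat.findGreatest_spec (P := fun i => s i ≠ none) hj1 hs
  have hi3 : i ≤ j := Nat.findGreatest_le _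
  have hmax : ∀ l, i < l → l ≤ j → s l = none := by
    intro l h1 h2
    by_contra hc
    exact Nat.findGreatest_is_greatest h1 h2 hc
  have hg := sep i j hi1 hi3 hjle hi2 hj2
  exact ⟨i + 1, by omega, by omega, fun l h1 h2 => ⟨hmax l (by omega) (by omega), hmin l (by omega) (by omega)⟩⟩

theorem lin {k : ℕ} (hk : 1 ≤ k) (P : List C → ℝ)
    (hP : ∀ u v : List C, ∑ s : Fin k → C, P (u ++ List.ofFn s ++ v) = P u * P v)
    (hN : ∀ m, st P (List.replicate m none) = 1) (s t : ℕ → Option C) :
    ∀ m a, (∀ i j, a ≤ i → i < a + m → a ≤ j → j < a + m → s i ≠ none → t j ≠ none → i + k < j ∨ j + k < i) →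
      st P (seg (fun i => (s i).or (t i)) a m) = st P (seg s a m) * st P (seg t a m) := by
  intro m
  induction m using Nat.strong_induction_on with
  | _ m ih =>
    intro a hsep
    by_cases hs : ∀ i, a ≤ i → i < a + m → s i = none
    · rw [seg_const s none a m hs, hN, one_mul]
      congr 1
      apply seg_congr
      intro i hi
      simp [hs (a + i) (by omega) (by omega)]
    by_cases ht : ∀ i, a ≤ i → i < a + m → t i = none
    · rw [seg_const t none a m ht, hN, mul_one]
      congr 1
      apply seg_congr
      intro i hi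
      simp [ht (a + i) (by omega) (by omega)]
    push Not at hs ht
    obtain ⟨i0, hi1, hi2, hi3⟩ := hs
    obtain ⟨j0, hj1, hj2, hj3⟩ := ht
    have hgap : ∃ p, a ≤ p ∧ p + k ≤ a + m ∧ ∀ l, p ≤ l → l < p + k → s l = none ∧ t l = none := by
      rcases le_total i0 j0 with h | h
      · obtain ⟨p, h1, h2, h3⟩ := gap_lem (k := k) s t i0 j0 h hi3 hj3 (by
          intro i j h1 h2 h3 h4 h5
          rcases hsep i j (by omega) (by omega) (by omega) (by omega) h4 h5 with h6 | h6
          · exact h6
          · omega)
        exact ⟨p, by omega, by omega, h3⟩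
      · obtain ⟨p, h1, h2, h3⟩ := gap_lem (k := k) t s j0 i0 h hj3 hi3 (by
          intro i j h1 h2 h3 h4 h5
          rcases hsep j i (by omega) (by omega) (by omega) (by omega) h5 h4 with h6 | h6
          · omega
          · exact h6)
        exact ⟨p, by omega, by omega, fun l h4 h5 => ⟨(h3 l h4 h5).2, (h3 l h4 h5).1⟩⟩
    obtain ⟨p, hp1, hp2, hp3⟩ := hgap
    obtain ⟨m1, rfl⟩ := Nat.exists_eq_add_of_le hp1
    obtain ⟨m2, hm2⟩ := Nat.exists_eq_add_of_le hp2
    have hm : m = m1 + (k + m2) := by omega
    have hsplit : ∀ f : ℕ → Option C, (∀ l, a + m1 ≤ l → l < a + m1 + k → f l = none) →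
        st P (seg f a m) = st P (seg f a m1) * st P (seg f (a + m1 + k) m2) := by
      intro f hf
      rw [hm, seg_add, seg_add, seg_const f none (a + m1) k hf, st_split P hP]
    rw [hsplit s (fun l h1 h2 => (hp3 l h1 h2).1), hsplit t (fun l h1 h2 => (hp3 l h1 h2).2),
      hsplit (fun i => (s i).or (t i)) (fun l h1 h2 => by
        simp only [(hp3 l h1 h2).1, (hp3 l h1 h2).2]; rfl),
      ih m1 (by omega) a (fun i j h1 h2 h3 h4 => hsep i j (by omega) (by omega) (by omega) (by omega)),
      ih m2 (by omega) (a + m1 + k) (fun i j h1 h2 h3 h4 => hsep i j (by omega) (by omega) (by omega) (by omega))]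
    ring

theorem st_rot (f : List C → ℝ) (hrot : ∀ x w, f (x :: w) = f (w ++ [x])) (x : Option C) (l : List (Option C)) :
    st f (x :: l) = st f (l ++ [x]) := by
  rw [st_append]
  cases x with
  | none =>
    rw [st_none]
    simp only [st_none, st_nil]
    rw [st_sum]
    apply Finset.sum_congr rfl
    intro c _
    apply st_congr
    intro w _
    exact hrot c w
  | some c =>
    rw [st_some]
    simp only [st_some, st_nil]
    apply st_congr
    intro w _
    exact hrot c w

theorem st_seg_rot (f : List C → ℝ) (hrot : ∀ x w, f (x :: w) = f (w ++ [x])) (n : ℕ) (hn : 0 < n)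
    (s : ℕ → Option C) (hs : ∀ i, s (i + n) = s i) (a : ℕ) : st f (seg s a n) = st f (seg s 0 n) := by
  induction a with
  | zero => rfl
  | succ a ih =>
    rw [← ih]
    obtain ⟨m, rfl⟩ := Nat.exists_eq_succ_of_ne_zero hn.ne'
    rw [Nat.succ_eq_add_one, seg_succ s a m, st_rot f hrot, seg_add s (a + 1) m 1, seg_succ, seg_zero]
    have := hs a
    rw [Nat.succ_eq_add_one, show a + (m + 1) = a + 1 + m by ring] at this
    rw [this]

theorem seg_rot (f : List C → ℝ) (hrot : ∀ x w, f (x :: w) = f (w ++ [x])) (n : ℕ) (hn : 0 < n)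
    (s : ℕ → C) (hs : ∀ i, s (i + n) = s i) (a : ℕ) : f (seg s a n) = f (seg s 0 n) := by
  induction a with
  | zero => rfl
  | succ a ih =>
    rw [← ih]
    obtain ⟨m, rfl⟩ := Nat.exists_eq_succ_of_ne_zero hn.ne'
    rw [Nat.succ_eq_add_one, seg_succ s a m, hrot, seg_add s (a + 1) m 1, seg_succ, seg_zero]
    have := hs a
    rw [Nat.succ_eq_add_one, show a + (m + 1) = a + 1 + m by ring] at this
    rw [this]

theorem st_end {k : ℕ} (P Cy : List C → ℝ)
    (h : ∀ w : List C, 3 ≤ w.length + k → ∑ s : Fin k → C, Cy (w ++ List.ofFn s) = P w)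
    (l : List (Option C)) (hl : 3 ≤ l.length + k) : st Cy (l ++ List.replicate k none) = st P l := by
  rw [st_append]
  apply st_congr
  intro w hw
  rw [st_replicate]
  exact h w (by omega)

end lin

/-! ### distances in the cycle -/

theorem cyc_dist (n : ℕ) [NeZero n] (hn : 3 ≤ n) (a d : ℕ) :
    (SimpleGraph.cycleGraph n).dist (Fin.ofNat n a) (Fin.ofNat n (a + d)) ≤ d := by
  have hconn : (SimpleGraph.cycleGraph n).Connected := by
    obtain ⟨m, rfl⟩ := Nat.exists_eq_succ_of_ne_zero (by omega : n ≠ 0)
    exact SimpleGraph.cycleGraph_connected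
  induction d with
  | zero => simp
  | succ d ih =>
    have h1 : (SimpleGraph.cycleGraph n).Adj (Fin.ofNat n (a + d)) (Fin.ofNat n (a + (d + 1))) := by
      rw [SimpleGraph.cycleGraph_adj']
      right
      rw [Fin.sub_def]
      simp only [Fin.val_ofNat]
      rw [show a + (d + 1) = (a + d) + 1 by ring]
      generalize a + d = x
      have hx : x % n < n := Nat.mod_lt _ (by omega)
      have hdm := Nat.div_add_mod x n
      rcases Nat.lt_or_ge (x % n + 1) n with h | h
      · have e : (x + 1) % n = x % n + 1 := by
          rw [Nat.add_mod, Nat.mod_eq_of_lt (by omega : 1 < n), Nat.mod_eq_of_lt h]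
        rw [e, show n - x % n + (x % n + 1) = 1 + n by omega, Nat.add_mod_right, Nat.mod_eq_of_lt (by omega)]
      · have e : (x + 1) % n = 0 := by
          rw [Nat.add_mod, Nat.mod_eq_of_lt (by omega : 1 < n), show x % n + 1 = n by omega, Nat.mod_self]
        rw [e, show n - x % n + 0 = 1 by omega, Nat.mod_eq_of_lt (by omega)]
    have h2 := SimpleGraph.dist_eq_one_iff_adj.2 h1
    have h3 := hconn.dist_triangle (u := Fin.ofNat n a) (v := Fin.ofNat n (a + d)) (w := Fin.ofNat n (a + (d + 1)))
    omega

/-! ### main -/

/-- total masses of `P` -/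
theorem total_one {q k : ℕ} (D : Data q k) (hk : 1 ≤ k) (hk2 : k ≤ 2) (m : ℕ) :
    st D.P (List.replicate m none) = 1 := by
  have hadd : ∀ a b, st D.P (List.replicate (a + (k + b)) none) =
      st D.P (List.replicate a none) * st D.P (List.replicate b none) := by
    intro a b
    rw [List.replicate_add, List.replicate_add, st_split D.P D.P_star]
  have h0 : st D.P (List.replicate 0 none) = 1 := D.P_nil
  have hstep : ∀ a, st D.P (List.replicate (a + k) none) = st D.P (List.replicate a none) := by
    intro a
    have := hadd a 0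
    rw [h0, mul_one] at this
    exact this
  rcases Nat.lt_or_ge k 2 with h1 | h1
  · have hk1 : k = 1 := by omega
    subst hk1
    induction m with
    | zero => exact h0
    | succ m ih => rw [hstep, ih]
  · have hk2' : k = 2 := by omega
    subst hk2'
    have hN1 : st D.P (List.replicate 1 none) = 1 := by
      have e1 := hadd 1 1
      have e2 := hstep 0
      have e3 := hstep 2
      rw [show 1 + (2 + 1) = 2 + 2 by norm_num, e3] at e1
      rw [Nat.zero_add] at e2
      rw [e2, h0] at e1
      have hpos : 0 ≤ st D.P (List.replicate 1 none) := by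
        rw [st_replicate]
        apply Finset.sum_nonneg
        intro x _
        rw [← D.Cy_star _ (by simp)]
        apply Finset.sum_nonneg
        intro y _
        exact D.Cy_nonneg _
      nlinarith
    induction m using Nat.strong_induction_on with
    | _ m ih =>
      rcases Nat.lt_or_ge m 2 with h | h
      · interval_cases m
        · exact h0
        · exact hN1
      · obtain ⟨m', rfl⟩ := Nat.exists_eq_add_of_le h
        rw [Nat.add_comm 2 m', hstep]
        exact ih m' (by omega)

theorem total_cy {q k : ℕ} (D : Data q k) (hk : 1 ≤ k) (hk2 : k ≤ 2) (n : ℕ) (hn : 3 ≤ n) :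
    st D.Cy (List.replicate n none) = 1 := by
  obtain ⟨m, rfl⟩ := Nat.exists_eq_add_of_le' (by omega : k ≤ n)
  rw [List.replicate_add, st_end D.P D.Cy D.Cy_star _ (by simpa using hn), total_one D hk hk2]

theorem t_AA : S_AA := by
  intro q k n D hk hk2 hn
  have hn0 : NeZero n := ⟨by omega⟩
  have hofn : ∀ i : Fin n, Fin.ofNat n (i : ℕ) = i := by
    intro i
    apply Fin.ext
    rw [Fin.val_ofNat]
    exact Nat.mod_eq_of_lt i.2
  have hper : ∀ i : ℕ, Fin.ofNat n (i + n) = Fin.ofNat n i := by
    intro i
    apply Fin.ext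
    rw [Fin.val_ofNat, Fin.val_ofNat, Nat.add_mod_right]
  refine ⟨?_, ?_, ?_⟩
  · rw [← st_replicate, total_cy D hk hk2 n hn]
  · have key : ∀ (x : Fin n → Fin q) (i j : Fin n), (j - i).val = 1 → x i = x j → D.Cy (List.ofFn x) = 0 := by
      intro x i j hij hx
      rw [seg_ofFn x (fun a => x (Fin.ofNat n a)) (fun i => by rw [hofn]),
        ← seg_rot D.Cy D.Cy_rot n (by omega) (fun a => x (Fin.ofNat n a)) (fun i => by simp only [hper]) (i : ℕ)]
      obtain ⟨m, rfl⟩ := Nat.exists_eq_add_of_le' (by omega : 2 ≤ n)
      rw [seg_succ, seg_succ]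
      have h2 : Fin.ofNat (m + 2) ((i : ℕ) + 1) = j := by
        have h3 : j - i = 1 := by
          apply Fin.ext
          rw [hij]
          simp
        have h4 : j = i + 1 := by
          rw [← h3]; abel
        rw [h4]
        apply Fin.ext
        rw [Fin.val_ofNat, Fin.val_add]
        simp
      rw [h2, hofn, ← hx]
      exact D.Cy_proper _ _
    rintro x ⟨i, j, hadj, hx⟩
    rw [SimpleGraph.cycleGraph_adj'] at hadj
    rcases hadj with h | h
    · exact key x j i h hx.symm
    · exact key x i j h hx
  · intro s t hst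
    rw [mass_eq, mass_eq, mass_eq]
    have hS := seg_ofFn s (fun a => s (Fin.ofNat n a)) (fun i => by rw [hofn])
    have hT := seg_ofFn t (fun a => t (Fin.ofNat n a)) (fun i => by rw [hofn])
    have hU := seg_ofFn (fun i => (s i).or (t i)) (fun a => (s (Fin.ofNat n a)).or (t (Fin.ofNat n a)))
      (fun i => by rw [hofn])
    set s' : ℕ → Option (Fin q) := fun a => s (Fin.ofNat n a) with hs'
    set t' : ℕ → Option (Fin q) := fun a => t (Fin.ofNat n a) with ht'
    have hs'per : ∀ i, s' (i + n) = s' i := fun i => by simp only [hs', hper]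
    have ht'per : ∀ i, t' (i + n) = t' i := fun i => by simp only [ht', hper]
    have hsep : ∀ i j, s' i ≠ none → t' j ≠ none → i + k < j ∨ j + k < i := by
      intro i j h1 h2
      have h3 := hst (Fin.ofNat n i) (Fin.ofNat n j) h1 h2
      rcases le_total i j with h | h
      · obtain ⟨d, rfl⟩ := Nat.exists_eq_add_of_le h
        have := cyc_dist n hn i d
        omega
      · obtain ⟨d, rfl⟩ := Nat.exists_eq_add_of_le h
        have := cyc_dist n hn j d
        rw [SimpleGraph.dist_comm] at this
        omega
    rw [hS, hT, hU]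
    by_cases hs : ∀ i, s' i = none
    · rw [seg_const s' none 0 n (fun i _ _ => hs i), total_cy D hk hk2 n hn, one_mul]
      congr 1
      apply seg_congr
      intro i _
      show (s' (0 + i)).or (t' (0 + i)) = t' (0 + i)
      rw [hs (0 + i)]
      rfl
    by_cases ht : ∀ i, t' i = none
    · rw [seg_const t' none 0 n (fun i _ _ => ht i), total_cy D hk hk2 n hn, mul_one]
      congr 1
      apply seg_congr
      intro i _
      show (s' (0 + i)).or (t' (0 + i)) = s' (0 + i)
      rw [ht (0 + i), Option.or_none]
    push Not at hs ht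
    obtain ⟨i0, hi0⟩ := hs
    obtain ⟨j1, hj1⟩ := ht
    -- a later position of the support of t
    have hj1' : ∀ c, t' (j1 + c * n) = t' j1 := by
      intro c
      induction c with
      | zero => simp
      | succ c ih => rw [Nat.succ_mul, ← Nat.add_assoc, ht'per, ih]
    have hle : i0 ≤ j1 + i0 * n := by nlinarith
    obtain ⟨p, hp1, hp2, hp3⟩ := gap_lem (k := k) s' t' i0 (j1 + i0 * n) hle hi0 (by rw [hj1']; exact hj1)
      (by
        intro i j _ h2 _ h4 h5
        rcases hsep i j h4 h5 with h6 | h6
        · exact h6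
        · omega)
    obtain ⟨m, hm⟩ := Nat.exists_eq_add_of_le' (by omega : k ≤ n)
    have hgen : ∀ f : ℕ → Option (Fin q), (∀ i, f (i + n) = f i) → (∀ l, p ≤ l → l < p + k → f l = none) →
        st D.Cy (seg f 0 n) = st D.P (seg f (p + k) m) := by
      intro f hf hfp
      rw [← st_seg_rot D.Cy D.Cy_rot n (by omega) f hf (p + k)]
      have e1 : seg f (p + k) n = seg f (p + k) m ++ List.replicate k none := by
        conv_lhs => rw [hm]
        rw [seg_add]
        congr 1
        apply seg_const
        intro i h1 h2
        obtain ⟨i', rfl⟩ := Nat.exists_eq_add_of_le' (by omega : n ≤ i)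
        rw [hf]
        exact hfp i' (by omega) (by omega)
      rw [e1]
      exact st_end D.P D.Cy D.Cy_star _ (by rw [seg_length]; omega)
    rw [hgen s' hs'per (fun l h1 h2 => (hp3 l h1 h2).1), hgen t' ht'per (fun l h1 h2 => (hp3 l h1 h2).2),
      hgen (fun i => (s' i).or (t' i)) (fun i => by simp only [hs'per, ht'per]) (fun l h1 h2 => by
        simp only [(hp3 l h1 h2).1, (hp3 l h1 h2).2]; rfl)]
    exact lin hk D.P D.P_star (total_one D hk hk2) s' t' m (p + k) (fun i j _ _ _ _ h5 h6 => hsep i j h5 h6)

end Pool.Agent.W298.CY
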